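import Pool.Agent.H908.UC8

/-!
# Quotients of products of open curves: the logarithmic bigenus and `A¹`-uniruledness

Let `U_i = C_i ∖ B_i` (`i = 1, ..., r`) be smooth complex curves of arbitrary genera; here `C_i` is
projective and `B_i` is a finite set of points, possibly empty. Let `U = U_1 × ... × U_r`, let `G` be a
group of birational automorphisms of `U` which preserves the boundary (automorphisms of `U`, for
instance), and let `X` be a smooth variety with a proper birational morphism to `U / G`. One of the
following two conditions is assumed.

* (a) `G` is finite and permutes the factors, and its elements which map a factor `U_i` to itself act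
  on `U_i` trivially or by an involution with quotient `P¹` or `A¹`. For instance `U = C ^ r` for an
  open curve `C` and `G` is any group of permutations; or `U = (ℂ^*) ^ r` and `G` is any group of
  signed permutations of the coordinates (a finite group generated by permutations and by inversions
  of coordinates, and all its subgroups: Weyl groups of type `A`, `B`, `C`, `D`).
* (b) the genera are at least two and the only automorphisms `≠ 1` of the open curves `U_i` are
  involutions with quotient `P¹` or `A¹` (general open curves, isomorphic curves are allowed); `G` is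
  **any** group of birational automorphisms which preserves the boundary.

The singularities of `U / G` are arbitrary, `G` may contain reflections, and its elements may have fixed
loci of codimension one.

The theorem: `X` is `A¹`-uniruled if and only if its logarithmic Kodaira dimension is `-∞`, if and only
if its second logarithmic plurigenus is zero, if and only if `K + D` is not pseudo-effective (`D` is the
boundary of a compactification with normal crossings). Moreover these conditions hold if and only if
`G` contains a reflection of a factor, or some block of involutive transpositions is larger than the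
logarithmic irregularity `q(U_i) = g(C_i) + max (|B_i| - 1, 0)` of its curves.

Proof. Logarithmic differentials of the curves, chosen in a `G`-equivariant way, give the product of
the determinants `det (f_n (x_i)) dW_1 ∧ ... ∧ dW_b` over the blocks. Its square is `G`-invariant and
logarithmic at the boundary; it is regular outside the boundary on `X`, since the determinants vanish
along the fixed divisors of the transpositions, and the age is at least one at all the other divisors
with nontrivial inertia. Conversely, let a block have `b > q(U_i)` elements. By Riemann-Roch there is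
for a general effective divisor `E` of degree `b` on `C_i` a function `f` with poles `E` which vanishes
on `B_i` (in one point, if `B_i` is empty). The zeros of `f - c`, `c ≠ 0`, and the poles `E` do not
meet `B_i`, so they define a nonconstant map of `A¹ = P¹ ∖ {0}` to the symmetric product of `U_i`
through the point `E`. A reflection gives curves `A¹` since `U_i` modulo the involution is `P¹` or
`A¹`. That an `A¹`-uniruled variety has no pseudo-effective log canonical divisor is a theorem of the
library.
-/

set_option autoImplicit false
set_option linter.overlappingInstances false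

open FF IntermediateField
open Pool.Agent.W619.PQ (IsDivisorial IsPluriForm RegularAt)
open Pool.Agent.W619.PL (LogRegularAt LogKodairaNeg IsA1Uniruled)
open Pool.Agent.W619.TW (IsPsef)
open Pool.Agent.Helper11K9.OD (regularForms)

namespace Pool.Agent.Results.MP_410da7_ag.LogBigenusCriterion

/-- The genus of the curve with the field of functions `F`: the dimension of the space of regular
differential forms. -/
noncomputable def genus (F : Type) [Field F] [Algebra ℂ F] : ℕ :=
  Module.finrank ℂ (regularForms F)

/-- The second logarithmic plurigenus is zero: a form of weight two which is regular at the prime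
divisors outside the boundary `Bd` and has logarithmic poles at the prime divisors in the boundary is
zero. (The forms on the varieties of dimension `n` with the field of functions `K` are given by their
values on `n` vector fields; `IsPluriForm ℂ K n 2 ω` says that `ω` is multiplied by the square of the
determinant under linear substitutions of the vector fields.) -/
def LogBigenusZero (K : Type) [Field K] [Algebra ℂ K] (n : ℕ) (Bd : Place ℂ K → Prop) : Prop :=
  ∀ ω : (Fin n → Derivation ℂ K K) → K, IsPluriForm ℂ K n 2 ω →
    (∀ v : Place ℂ K, IsDivisorial v n → ¬ Bd v → RegularAt v n ω) →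
    (∀ v : Place ℂ K, IsDivisorial v n → Bd v → LogRegularAt v n ω) → ∀ D, ω D = 0

section

variable {L : Type} [Field L] [Algebra ℂ L] {r : ℕ}

/-- The boundary of the product of the open curves `C i ∖ B i`: the restriction of the place `Q` of `L`
to some `M i` is a positive multiple of a place of `B i`. (The centre of `Q` is not on the product of
the open curves.) -/
def Boundary (M : Fin r → IntermediateField ℂ L) (B : ∀ i, Finset (Place ℂ (M i)))
    (Q : Place ℂ L) : Prop :=
  ∃ i, ∃ p ∈ B i, ∃ e : ℕ, 0 < e ∧ ∀ z : M i, Q.ord (z : L) = e * p.ord z

/-- The boundary of the quotient: the places `v` of the field of invariants which lie under a place `Q`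
of the boundary of the product. -/
def QuotientBoundary (M : Fin r → IntermediateField ℂ L) (B : ∀ i, Finset (Place ℂ (M i)))
    (G : Subgroup (L ≃ₐ[ℂ] L)) (v : Place ℂ (fixedField G)) : Prop :=
  ∃ Q : Place ℂ L, Boundary M B Q ∧
    ∃ e : ℕ, 0 < e ∧ ∀ z : fixedField G, Q.ord (z : L) = e * v.ord z

/-- The group `G` permutes the factors. (`M i` is the field of functions of the factor `i`.) -/
def PermutesFactors (M : Fin r → IntermediateField ℂ L) (G : Subgroup (L ≃ₐ[ℂ] L)) : Prop :=
  ∀ g ∈ G, ∀ i, ∃ j, ∀ z ∈ M i, g z ∈ M j

/-- The group `G` preserves the boundary: if `g ∈ G` maps `M i` to `M j`, then the places of `M i`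
which correspond under `g` to the places of `B j` are in `B i`. -/
def PreservesBoundary (M : Fin r → IntermediateField ℂ L) (B : ∀ i, Finset (Place ℂ (M i)))
    (G : Subgroup (L ≃ₐ[ℂ] L)) : Prop :=
  ∀ g ∈ G, ∀ i j, (∀ z ∈ M i, g z ∈ M j) → ∀ p ∈ B j, ∃ q ∈ B i,
    ∀ (z : M i) (z' : M j), (z' : L) = g z → q.ord z = p.ord z'

/-- An element of `G` which maps the factor `i` to itself acts on it trivially or by an involution for
which the quotient of the open curve `C i ∖ B i` is the line or the affine line, that is, the fixed
field is `ℂ(t)` for some `t` which has poles at all the points of `B i`. -/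
def LineStabilizers (M : Fin r → IntermediateField ℂ L) (B : ∀ i, Finset (Place ℂ (M i)))
    (G : Subgroup (L ≃ₐ[ℂ] L)) : Prop :=
  ∀ g ∈ G, ∀ i, (∀ z ∈ M i, g z ∈ M i) → (∀ z ∈ M i, g z = z) ∨
    ((∀ z ∈ M i, g (g z) = z) ∧ ∃ t : M i, (∀ z : M i, g (z : L) = z ↔ z ∈ ℂ⟮t⟯) ∧
      ∀ p ∈ B i, p.ord t < 0)

/-- The genera are at least two, and the automorphisms `≠ 1` of the open curves `C i ∖ B i` are
involutions whose quotient is the line or the affine line. -/
def GeneralOpenCurves (M : Fin r → IntermediateField ℂ L) (B : ∀ i, Finset (Place ℂ (M i))) : Prop :=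
  (∀ i, 2 ≤ genus (M i)) ∧ ∀ i (s : M i ≃ₐ[ℂ] M i), s ≠ 1 →
    (∀ p ∈ B i, ∃ q ∈ B i, ∀ z, q.ord z = p.ord (s z)) →
    (∀ z, s (s z) = z) ∧ ∃ t : M i, (∀ z, s z = z ↔ z ∈ ℂ⟮t⟯) ∧ ∀ p ∈ B i, p.ord t < 0

/-- `g` is a reflection of the factor `i`: it is an automorphism `g ≠ 1` which maps the factor `i`
to itself and is trivial on all the other factors. -/
def IsReflection (M : Fin r → IntermediateField ℂ L) (g : L ≃ₐ[ℂ] L) (i : Fin r) : Prop :=
  g ≠ 1 ∧ (∀ z ∈ M i, g z ∈ M i) ∧ ∀ l, l ≠ i → ∀ z ∈ M l, g z = z

/-- `g` is an involutive transposition of the factors `i ≠ j`: it exchanges them, it is trivial on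
all the other factors, and `g ^ 2 = 1`. -/
def IsTransposition (M : Fin r → IntermediateField ℂ L) (g : L ≃ₐ[ℂ] L) (i j : Fin r) : Prop :=
  i ≠ j ∧ (∀ z ∈ M i, g z ∈ M j) ∧ (∀ z ∈ M j, g z ∈ M i) ∧
    (∀ l, l ≠ i → l ≠ j → ∀ z ∈ M l, g z = z) ∧ ∀ z, g (g z) = z

/-- The block of the factor `i`: it consists of `i` and of the `j` such that `G` contains an
involutive transposition of `i` and `j`. -/
def block (M : Fin r → IntermediateField ℂ L) (G : Subgroup (L ≃ₐ[ℂ] L)) (i : Fin r) :
    Set (Fin r) :=
  {j | j = i ∨ ∃ g ∈ G, IsTransposition M g i j}

end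

/-- **Logarithmic Kodaira dimension and `A¹`-uniruledness of quotients of products of open curves.**
Let `M i` (`i < r`) be the fields of functions of smooth projective curves `C i`, `B i` finite sets of
points of `C i` (possibly empty), and `L` the field of functions of the product `U` of the open curves
`C i ∖ B i`. Let `G` be a group of birational automorphisms of `U` which preserves the boundary; assume
that (a) `G` is finite, permutes the factors, and its stabilizers act on the open curves trivially or by
involutions whose quotient is the line or the affine line, or (b) the genera are at least two and all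
automorphisms `≠ 1` of the open curves are such involutions. Let `X` be a smooth variety, proper and
birational over `U / G`; its field of functions is `fixedField G`, and the divisors at infinity are
given by `QuotientBoundary`. Then: the log canonical divisor `K + D` is pseudo-effective, the
logarithmic Kodaira dimension is nonnegative, the second logarithmic plurigenus is not zero, `X` is
not `A¹`-uniruled, and (`G` contains no reflection of a factor, and the block of each `C i` has at most
as many elements as the logarithmic irregularity of `C i ∖ B i`) are equivalent. -/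
theorem result {L : Type} [Field L] [Algebra ℂ L] {r : ℕ} (M : Fin r → IntermediateField ℂ L)
    (hess : ∀ i, Algebra.EssFiniteType ℂ (M i)) (htr : ∀ i, Algebra.trdeg ℂ (M i) = 1)
    (hL : Algebra.trdeg ℂ L = r) (hsup : (⨆ i, M i) = ⊤) (B : ∀ i, Finset (Place ℂ (M i)))
    (G : Subgroup (L ≃ₐ[ℂ] L)) (hB : PreservesBoundary M B G)
    (hG : (Finite G ∧ PermutesFactors M G ∧ LineStabilizers M B G) ∨ GeneralOpenCurves M B) :
    [IsPsef ℂ (fixedField G) r (QuotientBoundary M B G),
      ¬ LogKodairaNeg ℂ (fixedField G) r (QuotientBoundary M B G),
      ¬ LogBigenusZero (fixedField G) r (QuotientBoundary M B G),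
      ¬ IsA1Uniruled ℂ (fixedField G) r (QuotientBoundary M B G),
      (¬ ∃ g ∈ G, ∃ i, IsReflection M g i) ∧
        ∀ i, (block M G i).ncard ≤ genus (M i) + ((B i).card - 1)].TFAE := by
  obtain ⟨hfin, hperm, hst⟩ : Finite G ∧ PermutesFactors M G ∧ LineStabilizers M B G := by
    rcases hG with h | ⟨h1, h2⟩
    · exact h
    · exact Pool.Agent.H908.UC.general_pairs M hess htr hL hsup h1 B h2 G hB
  have h := Pool.Agent.H908.UC.main M hess htr hL hsup B G hperm hB hst (QuotientBoundary M B G)
    (fun v => by
      constructor
      · rintro ⟨Q, hQ, e, he⟩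
        exact ⟨Q, e, he, hQ⟩
      · rintro ⟨Q, e, he, hQ⟩
        exact ⟨Q, hQ, e, he⟩)
  have h1 : (∃ g ∈ G, g ≠ 1 ∧ ∃ i, (∀ z ∈ M i, g z ∈ M i) ∧ ∀ l, l ≠ i → ∀ z ∈ M l, g z = z) ↔
      ∃ g ∈ G, ∃ i, IsReflection M g i := by
    constructor
    · rintro ⟨g, hg, hg1, i, h2⟩
      exact ⟨g, hg, i, hg1, h2⟩
    · rintro ⟨g, hg, i, hg1, h2⟩
      exact ⟨g, hg, hg1, i, h2⟩
  have h2 : ∀ i, Pool.Agent.H908.TA.bl M (fun _ => 1) G i = block M G i := by
    intro i
    ext j
    constructor
    · rintro (h3 | ⟨g, hg, ⟨a1, -, -, a2, a3, a4⟩, a5⟩)
      · exact Or.inl h3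
      · exact Or.inr ⟨g, hg, a1, a2, a3, a4, a5⟩
    · rintro (h3 | ⟨g, hg, a1, a2, a3, a4, a5⟩)
      · exact Or.inl h3
      · exact Or.inr ⟨g, hg, ⟨a1, rfl, rfl, a2, a3, a4⟩, a5⟩
  simp only [h2, h1] at h
  have e1 : LogBigenusZero (fixedField G) r (QuotientBoundary M B G) ↔
      LogKodairaNeg ℂ (fixedField G) r (QuotientBoundary M B G) := h.out 0 1
  have e2 : LogKodairaNeg ℂ (fixedField G) r (QuotientBoundary M B G) ↔
      ¬ IsPsef ℂ (fixedField G) r (QuotientBoundary M B G) := h.out 1 2
  have e3 : IsA1Uniruled ℂ (fixedField G) r (QuotientBoundary M B G) ↔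
      LogKodairaNeg ℂ (fixedField G) r (QuotientBoundary M B G) := h.out 3 1
  have e4 : ((∃ g ∈ G, ∃ i, IsReflection M g i) ∨
      ∃ i, Module.finrank ℂ (regularForms (M i)) + ((B i).card - 1) < (block M G i).ncard) ↔
      LogKodairaNeg ℂ (fixedField G) r (QuotientBoundary M B G) := h.out 4 1
  have e5 : ((¬ ∃ g ∈ G, ∃ i, IsReflection M g i) ∧
      ∀ i, (block M G i).ncard ≤ genus (M i) + ((B i).card - 1)) ↔
      ¬ LogKodairaNeg ℂ (fixedField G) r (QuotientBoundary M B G) := by
    rw [← e4, not_or]
    simp only [not_exists, not_lt]
    rfl
  tfae_have 1 ↔ 2 := by rw [e2, not_not]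
  tfae_have 2 ↔ 3 := by rw [e1]
  tfae_have 2 ↔ 4 := by rw [e3]
  tfae_have 2 ↔ 5 := e5.symm
  tfae_finish

end Pool.Agent.Results.MP_410da7_ag.LogBigenusCriterion
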