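import Pool.Agent.H897.ND

/-!
MP_410da7_ag, Q1: logarithmic tensors on open varieties of negative logarithmic Kodaira dimension,
the distributions which are invariant under all dominant endomorphisms, and `A¹`-connectedness.

**Varieties as function fields.** `K` is a finitely generated field of transcendence degree `n` over
`ℂ`, the function field of a smooth quasi-projective variety `U` of dimension `n` (the variety `X` of
the problem), with a smooth projective compactification `Ū` whose boundary `B` is a simple normal
crossing divisor. A rational vector field on `U` is an element of `Derivation ℂ K K`. `Place ℂ K` is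
the type of the discrete valuations of `K`, `v.ord f` is the order of `f`, `v.Reg f` means that `f`
has no pole along `v`, and `IsDivisorial v n` means that `v` is a prime divisor on some smooth
projective model of `U`. `Bd` is the set of the places whose centre is not on `U`. (The theorem holds
for each set `Bd` of places.)

`bdMult Bd` (`ND.lean`): the multiplicity `1` along the places in `Bd`, and `0` along the others.
`TensorOrb n (bdMult Bd) T` (`Pool/Graph/.../N133/TB/Stm.lean`): the `m`-linear form `T` on the
rational vector fields with values in `K` is a logarithmic tensor, that is a section of the `m`-th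
tensor power of `Ω (log B)` on `Ū`: along each prime divisor `v ∉ Bd` it is regular, and along
`v ∈ Bd` it has at most simple poles in the direction of each of its arguments which is not a
logarithmic vector field (if all vector fields `D j` are regular along `v`, and those outside the
set `S` of arguments are logarithmic, then `v.ord (T D) ≥ - |S|`).

`LogKodairaNeg ℂ K n Bd`, `IsA1Uniruled ℂ K n Bd`
(`Pool/Graph/R_seed8/W619/PL/LDefs.lean`): `U` has the logarithmic Kodaira dimension `- ∞`,
respectively `U` is `A¹`-uniruled, that is there are the function field `M` of a variety `Y` of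
dimension `n - 1` and an embedding of `K` into `M(t)`, a dominant rational map `Y × A¹ ⇢ U`, which
maps no closed point of the generic line `A¹_M` to the boundary.
`PairKod ℂ K n (bdMult Bd) h` (`Pool/Graph/R_seed8/Y174/BDefs.lean`): the logarithmic Kodaira
dimension of `U` is at least `h`, that is for some `m ≥ 1` there are `h + 1` sections of
`m (K_Ū + B)` with algebraically independent ratios.

**Dominant endomorphisms.** A dominant rational map `φ : U ⇢ U` is a homomorphism
`φ : K →ₐ[ℂ] K`. `OpenMap Bd φ` (`ND.lean`): if `v` is the restriction of the place `w` to `K`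
along `φ` (that is `w.ord (φ f) = e * v.ord f`, with `e > 0`), and `v` is in `Bd`, then `w` is in
`Bd`. It holds for all dominant morphisms `U → U`. `LiftOf φ D D'` (`LA.lean`): the vector field `D'`
is the pull-back of the vector field `D` under the generically étale map `φ`,
`D' (φ f) = φ (D f)`. `SelfInvOn S F` (`NB.lean`): the distribution `F` (a `K`-subspace of the
rational vector fields, not necessarily closed under Lie brackets) is invariant under all `φ` in `S`:
the pull-back of a vector field `D` is in `F` if and only if `D` is in `F`.

**Connectedness by affine lines.** `lineConst K n Bd` (`ND.lean`): the field of the rational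
functions on `U` which are constant on the lines of all covering families of affine lines in `U`
(the embeddings of `K` into `M(t)` in the definition of `IsA1Uniruled`).
`LineConnected K n Bd`: this field is `ℂ`.

**Theorem.** (1) Let `U` be of logarithmic Kodaira dimension `- ∞`, and suppose that there is a
nonzero logarithmic tensor of some degree between `1` and `M`. Then there is a distribution
`F ≠ 0, T_U` which is invariant under all dominant endomorphisms of `U`, and on which all
logarithmic tensors of the degrees `1, …, M` vanish.
(2) Suppose that `0` and `T_U` are the only distributions which are invariant under all `φ` with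
`OpenMap Bd φ` (for instance, that some dominant endomorphism of `U` has no other
invariant distributions). Then
(a) `U` has a nonzero logarithmic tensor of some degree `m ≥ 1` if and only if its logarithmic
Kodaira dimension is not `- ∞`, and the logarithmic Kodaira dimension is `- ∞`, `0` or `n`;
(b) `U` is `A¹`-uniruled if and only if it is connected by affine lines;
(c) the statement of Q1 for `U` (if the logarithmic Kodaira dimension is `- ∞` then `U` is
`A¹`-uniruled) holds if and only if the following holds: if `U` has no nonzero logarithmic tensors,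
then `U` is connected by affine lines.

**Proof.** The pull-back by `φ` gives an injective semilinear map from the `K`-space spanned by the
logarithmic tensors of the degree `d` to itself, so it maps bases to bases. If the logarithmic
Kodaira dimension is `- ∞` then all semi-invariants of the tensors of degree at most `M` vanish
(the determinant of the logarithmic vector fields is a section of `- (K_Ū + B)`), and the optimal
filtration of Kempf exists; by the uniqueness of the optimal filtration it is invariant under the
pull-backs. The field generated by the ratios of the logarithmic pluricanonical forms, and the field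
of the functions which are constant on the lines of the covering families, are mapped into
themselves by `φ`, and hence they are algebraic over their images. So the distributions of the vector
fields which vanish on them are invariant too.
-/

set_option autoImplicit false

open FF Pool.Agent.Y174 Pool.Agent.N133.TB Pool.Agent.W619.PQ Pool.Agent.W619.PL Pool.Agent.H897

namespace Pool.Agent.Results.MP_410da7_ag.SelfMapLogTensors

/-- **Logarithmic tensors, dominant endomorphisms and affine lines.** -/
theorem result {K : Type} [Field K] [Algebra ℂ K] (hess : Algebra.EssFiniteType ℂ K) {n : ℕ}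
    (hn : Algebra.trdeg ℂ K = n) (hn1 : 1 ≤ n) (Bd : Place ℂ K → Prop) :
    (LogKodairaNeg ℂ K n Bd → ∀ M : ℕ,
      (∃ m, 1 ≤ m ∧ m ≤ M ∧ ∃ T : MultilinearMap K (fun _ : Fin m => Derivation ℂ K K) K,
        TensorOrb n (bdMult Bd) T ∧ T ≠ 0) →
      ∃ F : Submodule K (Derivation ℂ K K), F ≠ ⊥ ∧ F ≠ ⊤ ∧ SelfInvOn {φ | OpenMap Bd φ} F ∧
        ∀ m, 1 ≤ m → m ≤ M → ∀ T : MultilinearMap K (fun _ : Fin m => Derivation ℂ K K) K,
          TensorOrb n (bdMult Bd) T → ∀ D : Fin m → Derivation ℂ K K,
            (∀ j, D j ∈ F) → T D = 0) ∧
    ((∀ F : Submodule K (Derivation ℂ K K), SelfInvOn {φ | OpenMap Bd φ} F → F = ⊥ ∨ F = ⊤) →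
      ((∃ m, 1 ≤ m ∧ ∃ T : MultilinearMap K (fun _ : Fin m => Derivation ℂ K K) K,
        TensorOrb n (bdMult Bd) T ∧ T ≠ 0) ↔ ¬ LogKodairaNeg ℂ K n Bd) ∧
      (¬ LogKodairaNeg ℂ K n Bd →
        ¬ PairKod ℂ K n (bdMult Bd) 1 ∨ PairKod ℂ K n (bdMult Bd) n) ∧
      (IsA1Uniruled ℂ K n Bd ↔ LineConnected K n Bd) ∧
      (((∀ m, 1 ≤ m → ∀ T : MultilinearMap K (fun _ : Fin m => Derivation ℂ K K) K,
        TensorOrb n (bdMult Bd) T → T = 0) → LineConnected K n Bd) ↔
        (LogKodairaNeg ℂ K n Bd → IsA1Uniruled ℂ K n Bd))) := by
  have hS : ∀ φ ∈ {φ : K →ₐ[ℂ] K | OpenMap Bd φ}, OrbMap (bdMult Bd) (bdMult Bd) φ :=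
    fun φ hφ => OpenMap.orb hφ
  have hself := fun hκ M hM => self_inv_orb hess hn hn1 (bdMult_nonneg Bd) (bdMult_le Bd) hS
    ((logNeg_iff hess hn Bd).1 hκ) M hM
  refine ⟨hself, fun hirr => ?_⟩
  have h1 : (∃ m, 1 ≤ m ∧ ∃ T : MultilinearMap K (fun _ : Fin m => Derivation ℂ K K) K,
        TensorOrb n (bdMult Bd) T ∧ T ≠ 0) ↔ ¬ LogKodairaNeg ℂ K n Bd := by
    constructor
    · rintro ⟨m, hm, T, hT, hT0⟩ hκ
      obtain ⟨F, hF0, hF1, hF, -⟩ := hself hκ m ⟨m, hm, le_rfl, T, hT, hT0⟩
      rcases hirr F hF with h | h
      · exact hF0 h
      · exact hF1 h
    · intro hκ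
      rw [logNeg_iff hess hn Bd, not_not] at hκ
      obtain ⟨k, hk, ω, hω, D, hD, -⟩ := hκ
      exact otensor_of_form hn hn1 (bdMult_nonneg Bd) (bdMult_le Bd) hk (hω 0) ⟨D, hD 0⟩
  have hinv : ∀ I : IntermediateField ℂ K,
      (∀ φ : K →ₐ[ℂ] K, OpenMap Bd φ → ∀ x ∈ I, φ x ∈ I) →
      SelfInvOn {φ | OpenMap Bd φ} (killD I) := by
    intro I hI φ hφ
    exact lift_iff hess hn fun D D' hD hD' => kill_lift hn (hI φ hφ) hD hD'
  have h2 : IsA1Uniruled ℂ K n Bd → LineConnected K n Bd := by
    intro hu
    rcases hirr _ (hinv (lineConst K n Bd) fun φ hφ => lineConst_map hφ) with h | h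
    · exact absurd hu (not_a1_of_bot hn h)
    · exact lineConnected_of_top h
  refine ⟨h1, fun hκ => ?_, ⟨h2, a1_of_connected hn hn1⟩, ⟨fun h hκ => ?_, fun h hT => ?_⟩⟩
  · rw [logNeg_iff hess hn Bd, not_not] at hκ
    rcases hirr _ (hinv (ratioF K n (bdMult Bd)) fun φ hφ => ratioF_map hess hn (OpenMap.orb hφ))
      with h | h
    · exact Or.inr (okod_bot hn h hκ)
    · exact Or.inl (okod_top h)
  · refine a1_of_connected hn hn1 (h fun m hm T hT => ?_)
    by_contra hT0
    exact h1.1 ⟨m, hm, T, hT, hT0⟩ hκ
  · refine h2 (h ?_)
    by_contra hκ
    obtain ⟨m, hm, T, hT1, hT0⟩ := h1.2 hκ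
    exact hT0 (hT m hm T hT1)

end Pool.Agent.Results.MP_410da7_ag.SelfMapLogTensors
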