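import Pool.Agent.H837.LU.Red

/-!
# Negative logarithmic Kodaira dimension and affine lines: uniform bounds and finite fields

A smooth projective variety `X` of dimension `n` is given by `N` forms `F i` of degrees `δ i` in
`n + e + 1` variables, a divisor `D` with simple normal crossings on `X` by `M` forms `G i`
(`PairBy e b`: `X` is not empty, and `b` bounds the degrees of the local equations). `LogSectionBy e c δ F G` says that `m (K + D)`
has a nonzero section of complexity at most `c` for some `m` between `1` and `c`, `LinesBy c F G` that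
through the points of `X` in general position there are affine lines in `X` outside `D`, of degree at most `c`.
`Question n K` is the open direction of Q1 over the field `K`, for open varieties `X - D` of
dimension `n`: if there are no sections at all then there are affine lines of bounded degree.

It is shown that the question over the complex numbers is equivalent to the uniform statement that
`LogSectionBy e c δ F G` or `LinesBy c F G` holds, with `c` depending only on `n, e, N, M, b` and the
degrees, over all algebraically closed fields outside finitely many characteristics, and to the same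
statement over the algebraic closures of the prime fields `F_l` for infinitely many `l`. For one pair
over the integers both properties can be tested modulo large primes.
-/

set_option autoImplicit false

namespace Pool.Agent.Results.MP_410da7_ag.UniformLinesModPrimes

open MvPolynomial Pool.Agent.H837.LU

/-- **Negative logarithmic Kodaira dimension and affine lines: uniform bounds and finite fields.** -/
theorem result :
    (∀ n : ℕ, [∀ (K : Type) [Field K] [IsAlgClosed K] [CharZero K], Question n K,
     Question n ℂ,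
     ∀ (e N M b : ℕ) (δ : Fin N → ℕ) (γ : Fin M → ℕ), ∃ c q : ℕ, q ≠ 0 ∧
       ∀ (K : Type) [Field K] [IsAlgClosed K], (q : K) ≠ 0 →
       ∀ (F : Fin N → MvPolynomial (Fin (n + e + 1)) K)
         (G : Fin M → MvPolynomial (Fin (n + e + 1)) K),
         (∀ i, (F i).IsHomogeneous (δ i)) → (∀ i, (G i).IsHomogeneous (γ i)) →
         PairBy e b F G → ¬ LogSectionBy e c δ F G → LinesBy c F G,
     ∀ (e N M b : ℕ) (δ : Fin N → ℕ) (γ : Fin M → ℕ), ∃ c ℓ₀ : ℕ,
       ∀ (ℓ : ℕ) [Fact ℓ.Prime], ℓ₀ ≤ ℓ →
       ∀ (F : Fin N → MvPolynomial (Fin (n + e + 1)) (AlgebraicClosure (ZMod ℓ)))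
         (G : Fin M → MvPolynomial (Fin (n + e + 1)) (AlgebraicClosure (ZMod ℓ))),
         (∀ i, (F i).IsHomogeneous (δ i)) → (∀ i, (G i).IsHomogeneous (γ i)) →
         PairBy e b F G → ¬ LogSectionBy e c δ F G → LinesBy c F G,
     ∀ (e N M b : ℕ) (δ : Fin N → ℕ) (γ : Fin M → ℕ), ∃ c : ℕ,
       ∀ ℓ₀ : ℕ, ∃ (ℓ : ℕ) (_ : Fact ℓ.Prime), ℓ₀ ≤ ℓ ∧
       ∀ (F : Fin N → MvPolynomial (Fin (n + e + 1)) (AlgebraicClosure (ZMod ℓ)))
         (G : Fin M → MvPolynomial (Fin (n + e + 1)) (AlgebraicClosure (ZMod ℓ))),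
         (∀ i, (F i).IsHomogeneous (δ i)) → (∀ i, (G i).IsHomogeneous (γ i)) →
         PairBy e b F G → ¬ LogSectionBy e c δ F G → LinesBy c F G].TFAE) ∧
    ∀ (r N M : ℕ) (F : Fin N → MvPolynomial (Fin (r + 1)) ℤ)
      (G : Fin M → MvPolynomial (Fin (r + 1)) ℤ),
      [∃ c, LinesBy c (fun i => map (Int.castRingHom ℂ) (F i))
         fun i => map (Int.castRingHom ℂ) (G i),
       ∃ c ℓ₀ : ℕ, ∀ (ℓ : ℕ) [Fact ℓ.Prime], ℓ₀ ≤ ℓ →
         LinesBy c (fun i => map (Int.castRingHom (AlgebraicClosure (ZMod ℓ))) (F i))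
           fun i => map (Int.castRingHom (AlgebraicClosure (ZMod ℓ))) (G i),
       ∃ c : ℕ, ∀ ℓ₀ : ℕ, ∃ (ℓ : ℕ) (_ : Fact ℓ.Prime), ℓ₀ ≤ ℓ ∧
         LinesBy c (fun i => map (Int.castRingHom (AlgebraicClosure (ZMod ℓ))) (F i))
           fun i => map (Int.castRingHom (AlgebraicClosure (ZMod ℓ))) (G i)].TFAE ∧
      ∀ (e : ℕ) (δ : Fin N → ℕ),
        [∃ c, LogSectionBy e c δ (fun i => map (Int.castRingHom ℂ) (F i))
           fun i => map (Int.castRingHom ℂ) (G i),
         ∃ c ℓ₀ : ℕ, ∀ (ℓ : ℕ) [Fact ℓ.Prime], ℓ₀ ≤ ℓ →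
           LogSectionBy e c δ (fun i => map (Int.castRingHom (AlgebraicClosure (ZMod ℓ))) (F i))
             fun i => map (Int.castRingHom (AlgebraicClosure (ZMod ℓ))) (G i),
         ∃ c : ℕ, ∀ ℓ₀ : ℕ, ∃ (ℓ : ℕ) (_ : Fact ℓ.Prime), ℓ₀ ≤ ℓ ∧
           LogSectionBy e c δ (fun i => map (Int.castRingHom (AlgebraicClosure (ZMod ℓ))) (F i))
             fun i => map (Int.castRingHom (AlgebraicClosure (ZMod ℓ))) (G i)].TFAE :=
  ⟨question_tfae, fun _ _ _ F G => ⟨lines_reductions F G, fun e δ => logSection_reductions F G e δ⟩⟩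

end Pool.Agent.Results.MP_410da7_ag.UniformLinesModPrimes
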